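import Mathlib

/-! Coverings of the ball by cylinders of small total cross-sectional volume. -/

namespace Pool.Agent.Results.MP_15cfc2_co.Cheap

open Set Metric MeasureTheory Module

/-- Euclidean space -/
abbrev E (d : ℕ) := EuclideanSpace ℝ (Fin d)

/-- the cylinder `H + B` -/
def cyl {d : ℕ} (H : Submodule ℝ (E d)) (B : Set (E d)) : Set (E d) :=
  {x | ∃ h ∈ H, ∃ b ∈ B, x = h + b}

/-- the orthogonal projection of `K` onto the orthogonal complement of `H` -/
def proj {d : ℕ} (H : Submodule ℝ (E d)) (K : Set (E d)) : Set (E d) :=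
  {b | b ∈ Hᗮ ∧ ∃ h ∈ H, h + b ∈ K}

/-- `m`-dimensional Hausdorff measure -/
noncomputable def hm (d m : ℕ) : Measure (E d) := Measure.hausdorffMeasure m

/-- cross-sectional volume of the `k`-codimensional cylinder `H + B` relative to `K` -/
noncomputable def crv {d : ℕ} (k : ℕ) (K : Set (E d)) (H : Submodule ℝ (E d)) (B : Set (E d)) :
    ENNReal :=
  hm d (d - k) B / hm d (d - k) (proj H K)

/-- `H` has dimension `k` and `B` is a measurable subset of its orthogonal complement -/
def Good {d : ℕ} (k : ℕ) (H : Submodule ℝ (E d)) (B : Set (E d)) : Prop :=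
  finrank ℝ H = k ∧ MeasurableSet B ∧ ∀ b ∈ B, b ∈ Hᗮ

theorem key {d : ℕ} {ι : Type} [Fintype ι] [DecidableEq ι] (w : ι → E d) (hw : Orthonormal ℝ w)
    (t : ι → ℝ) (ht : ∀ s, 0 < t s) (m : ℕ) (hm' : finrank ℝ (Submodule.span ℝ (range w)) = m) :
    ∃ B : Set (E d), MeasurableSet B ∧ (∀ b ∈ B, b ∈ Submodule.span ℝ (range w)) ∧
      hm d m B / hm d m (proj (Submodule.span ℝ (range w))ᗮ (closedBall 0 1)) =
        ENNReal.ofReal (∏ s, t s)⁻¹ ∧
      ∀ x, ∑ s, (t s * inner ℝ (w s) x) ^ 2 ≤ 1 →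
        (Submodule.span ℝ (range w)).starProjection x ∈ B := by
  subst hm'
  let b0 := Basis.span hw.linearIndependent
  have hb0 : ∀ s, (b0 s : E d) = w s := fun s => by simp [b0, Basis.span_apply]
  have ho : Orthonormal ℝ b0 := by
    rw [orthonormal_iff_ite] at hw ⊢
    intro i j
    rw [Submodule.coe_inner, hb0, hb0, hw]
  let b := b0.toOrthonormalBasis ho
  have hb : ∀ s, b s = b0 s := fun s => by simp [b]
  let D := b0.constr ℝ fun s => t s • b0 s
  have hD : LinearMap.det D = ∏ s, t s := by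
    rw [← LinearMap.det_toMatrix b0, ← Matrix.det_diagonal]
    congr 1
    ext i j
    simp only [LinearMap.toMatrix_apply, D, Basis.constr_basis, map_smul, Basis.repr_self,
      Finsupp.smul_apply, Matrix.diagonal_apply, Finsupp.single_apply, smul_eq_mul]
    by_cases h : i = j
    · simp [h]
    · simp [h, Ne.symm h]
  have hp : 0 < ∏ s, t s := Finset.prod_pos fun s _ => ht s
  refine ⟨Subtype.val '' (D ⁻¹' closedBall 0 1),
    (Submodule.closed_of_finiteDimensional _).measurableSet.subtype_image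
      (measurableSet_closedBall.preimage D.continuous_of_finiteDimensional.measurable),
    by rintro _ ⟨y, -, rfl⟩; exact y.2, ?_, fun x hx =>
      ⟨(Submodule.span ℝ (range w)).orthogonalProjectionOnto x, ?_, rfl⟩⟩
  · have e : proj (Submodule.span ℝ (range w))ᗮ (closedBall 0 1) =
        Subtype.val '' (closedBall (0 : Submodule.span ℝ (range w)) 1) := by
      ext y
      simp only [proj, mem_ofPred_eq, mem_image, mem_closedBall_zero_iff,
        Submodule.orthogonal_orthogonal]
      refine ⟨fun ⟨hy, h, hh, e⟩ => ⟨⟨y, hy⟩, ?_, rfl⟩, ?_⟩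
      · have := norm_add_sq_real h y
        rw [Submodule.inner_left_of_mem_orthogonal hy hh] at this
        change ‖y‖ ≤ 1
        nlinarith [norm_nonneg y, norm_nonneg (h + y), sq_nonneg ‖h‖]
      · rintro ⟨y, h, rfl⟩
        exact ⟨y.2, 0, zero_mem _, by simpa using h⟩
    rw [e, hm, isometry_subtype_coe.hausdorffMeasure_image (Or.inl (Nat.cast_nonneg _)),
      isometry_subtype_coe.hausdorffMeasure_image (Or.inl (Nat.cast_nonneg _)),
      Measure.addHaar_preimage_linearMap _ (hD ▸ hp.ne'), hD, abs_of_pos (inv_pos.2 hp),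
      ENNReal.mul_div_cancel_right (measure_closedBall_pos _ _ one_pos).ne'
        measure_closedBall_lt_top.ne]
  · rw [mem_preimage, mem_closedBall_zero_iff, ← sq_le_one_iff₀ (norm_nonneg _),
      ← b.sum_sq_norm_inner_right]
    refine le_of_eq_of_le (Finset.sum_congr rfl fun s _ => ?_) hx
    rw [b.orthogonalProjectionOnto_apply_eq_sum, Real.norm_eq_abs, sq_abs]
    simp only [map_sum, map_smul, hb, D, Basis.constr_basis, smul_smul, hb0]
    rw [ho.inner_right_fintype, mul_comm]

theorem result (d k j r : ℕ) (hk : k ≤ d) (hj : 1 ≤ j) (hr : r ≤ d - k) (h : (j - 1) * r ≤ k) :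
    ∃ (H : Fin j → Submodule ℝ (E d)) (B : Fin j → Set (E d)), (∀ i, Good k (H i) (B i)) ∧
      closedBall 0 1 ⊆ ⋃ i, cyl (H i) (B i) ∧
      ∑ i, crv k (closedBall 0 1) (H i) (B i) = ENNReal.ofReal ((j : ℝ) ^ (1 - (r : ℝ) / 2)) := by
  obtain ⟨emb⟩ : Nonempty (Fin (d - k - r) ⊕ Fin j × Fin r ↪ Fin d) :=
    Function.Embedding.nonempty_of_card_le (by
      obtain ⟨j, rfl⟩ := Nat.exists_eq_add_of_le' hj
      simp only [Fintype.card_sum, Fintype.card_fin, Fintype.card_prod, add_mul,
        Nat.add_sub_cancel] at h ⊢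
      omega)
  let v := fun s => EuclideanSpace.basisFun (Fin d) ℝ (emb s)
  have hv : Orthonormal ℝ v := (EuclideanSpace.basisFun (Fin d) ℝ).orthonormal.comp _ emb.injective
  let w : Fin j → Fin (d - k - r) ⊕ Fin r → E d := fun i => v ∘ Sum.map id (Prod.mk i)
  have hw : ∀ i, Orthonormal ℝ (w i) := fun i => hv.comp _
    (Function.injective_id.sumMap (Prod.mk_right_injective i))
  have j0 : (0 : ℝ) < j := by exact_mod_cast hj
  let t : Fin (d - k - r) ⊕ Fin r → ℝ := Sum.elim (fun _ => 1) fun _ => √j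
  have ht : ∀ s, 0 < t s := by rintro (s | s) <;> simp [t, j0]
  have hf : ∀ i, finrank ℝ (Submodule.span ℝ (range (w i))) = d - k := fun i => by
    rw [finrank_span_eq_card (hw i).linearIndependent]
    simp only [Fintype.card_sum, Fintype.card_fin]
    omega
  choose B h1 h0 h2 h3 using fun i => key (w i) (hw i) t ht _ (hf i)
  refine ⟨fun i => (Submodule.span ℝ (range (w i)))ᗮ, B, fun i => ⟨?_, h1 i, fun b hb =>
    Submodule.le_orthogonal_orthogonal _ (h0 i b hb)⟩, fun x hx => ?_, ?_⟩
  · have e1 := Submodule.finrank_add_finrank_orthogonal (Submodule.span ℝ (range (w i)))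
    rw [hf, finrank_euclideanSpace_fin] at e1
    beta_reduce
    omega
  · have e1 := hv.sum_inner_products_le x (s := Finset.univ)
    have e2 : ‖x‖ ^ 2 ≤ 1 := (sq_le_one_iff₀ (norm_nonneg _)).2 (mem_closedBall_zero_iff.1 hx)
    simp only [Fintype.sum_sum_type, Fintype.sum_prod_type, Real.norm_eq_abs, sq_abs] at e1
    have : Nonempty (Fin j) := ⟨⟨0, hj⟩⟩
    obtain ⟨i, -, hi⟩ := Finset.exists_le_of_sum_le (s := Finset.univ)
      (f := fun i => ∑ s, (t s * inner ℝ (w i s) x) ^ 2) (g := fun _ => 1) Finset.univ_nonempty (by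
        simp only [Fintype.sum_sum_type, t, w, Sum.elim_inl, Sum.elim_inr, one_mul, mul_pow,
          Real.sq_sqrt j0.le, Function.comp, Sum.map_inl, Sum.map_inr, id, Finset.sum_add_distrib,
          Finset.sum_const, Finset.card_univ, Fintype.card_fin, nsmul_eq_mul, ← Finset.mul_sum]
        nlinarith)
    exact mem_iUnion.2 ⟨i, x - _, Submodule.sub_starProjection_mem_orthogonal x, _, h3 i x hi,
      (sub_add_cancel _ _).symm⟩
  · simp only [crv, h2, Finset.sum_const, Finset.card_univ, Fintype.card_fin, nsmul_eq_mul]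
    rw [← ENNReal.ofReal_natCast, ← ENNReal.ofReal_mul j0.le]
    congr 1
    simp only [Fintype.prod_sum_type, t, Sum.elim_inl, Sum.elim_inr, Finset.prod_const, one_pow,
      one_mul, Finset.card_univ, Fintype.card_fin]
    rw [Real.rpow_sub j0, Real.rpow_one, Real.sqrt_eq_rpow, ← Real.rpow_natCast,
      ← Real.rpow_mul j0.le, div_eq_mul_inv]
    congr 3
    ring

end Pool.Agent.Results.MP_15cfc2_co.Cheap
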